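import Pool.Agent.W539.Sig.Pro
import Pool.Agent.H914R2.Core0

/-!
# Algebras with a conjugate-linear involution and a trace
-/

open Matrix Finset TensorProduct
open scoped ComplexConjugate

namespace Pool.Agent.W539.Sig

/-- **Half of the coordinates suffice**, for finite-dimensional algebras with a nondegenerate
trace form. -/
theorem exists_half {B : Type*} [Ring B] [Algebra ℂ B] [FiniteDimensional ℂ B] {st : B → B}
    (h : IsStar st) (T : B →ₗ[ℂ] ℂ) (hTc : ∀ x y, T (x * y) = T (y * x))
    (hTn : ∀ e, e * e = e → ∃ m : ℕ, T e = m) (hnil : ∀ x, IsNilpotent x → T x = 0)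
    (hnd : ∀ x, (∀ y, T (x * y) = 0) → x = 0) :
    ∃ (κ : Type) (_ : Fintype κ) (F : B →ₗ[ℂ] (κ → ℂ)),
      2 * Fintype.card κ ≤ Module.finrank ℂ B ∧ ∀ x, F x = 0 → 0 ≤ (T (x * st x)).re := by
  have hArt : IsArtinianRing B := IsArtinianRing.of_finite ℂ B
  have hss : IsSemisimpleRing B := by
    rw [IsArtinianRing.isSemisimpleRing_iff_jacobson, eq_bot_iff]
    intro x hx
    rw [Ideal.mem_bot]
    apply hnd
    intro y
    apply hnil
    have h1 : x * y ∈ Ring.jacobson B := Ideal.mul_mem_right y _ hx
    obtain ⟨k, hk⟩ := (inferInstance : IsSemiprimaryRing B).isNilpotent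
    refine ⟨k, ?_⟩
    have h2 := Ideal.pow_mem_pow h1 k
    rw [hk] at h2
    exact h2
  obtain ⟨n, d, hd, ⟨e⟩⟩ := IsSemisimpleRing.exists_algEquiv_pi_matrix_of_isAlgClosed ℂ B
  have hst' : IsStar (fun x : Pr d => e (st (e.symm x))) :=
    { add := fun x y => by rw [map_add, h.add, map_add]
      smul := fun c x => by rw [map_smul, h.smul, map_smul]
      mul := fun x y => by rw [map_mul, h.mul, map_mul]
      inv := fun x => by rw [e.symm_apply_apply, h.inv, e.apply_symm_apply] }
  obtain ⟨κ, hκ, F, hF1, hF2⟩ := exists_good (fun i => (hd i).out) hst'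
    (T ∘ₗ e.symm.toLinearMap)
    (fun x y => by
      change T (e.symm (x * y)) = T (e.symm (y * x))
      rw [map_mul e.symm, map_mul e.symm, hTc])
    (fun x hx => by
      obtain ⟨m, hm⟩ := hTn (e.symm x) (by rw [← map_mul, hx])
      exact ⟨m, hm⟩)
  refine ⟨κ, hκ, F ∘ₗ e.toLinearMap, ?_, ?_⟩
  · have h1 : Module.finrank ℂ B = ∑ i, d i * d i := by
      rw [e.toLinearEquiv.finrank_eq, Module.finrank_pi_fintype]
      apply Finset.sum_congr rfl
      intro i _
      rw [Module.finrank_matrix, Module.finrank_self, Fintype.card_fin, mul_one]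
    rw [h1]; exact hF1
  · intro x hx
    have h1 := hF2 (e x) hx
    have h2 : (T ∘ₗ e.symm.toLinearMap) (e x * e (st (e.symm (e x)))) = T (x * st x) := by
      change T (e.symm (e x * e (st (e.symm (e x))))) = _
      rw [map_mul, e.symm_apply_apply, e.symm_apply_apply]
    rw [h2] at h1
    exact h1

section Traces

variable {L : Type*} [Field L] [CharZero L] {N : ℕ}

lemma nilp_of_trace {M : Matrix (Fin N) (Fin N) L} (h : ∀ r : ℕ, (M ^ (r + 1)).trace = 0) :
    IsNilpotent M := by
  have h1 : IsNilpotent (Matrix.toLinAlgEquiv' M) := by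
    apply Pool.Agent.H914.isNilpotent_of_trace_pow
    intro r
    rw [← map_pow]
    have := Matrix.trace_toLin'_eq (M ^ (r + 1))
    rw [h] at this
    exact this
  obtain ⟨k, hk⟩ := h1
  refine ⟨k, ?_⟩
  apply (Matrix.toLinAlgEquiv' (R := L) (n := Fin N)).injective
  rw [map_pow, hk, map_zero]

lemma trace_nat [IsAlgClosed L] {M : Matrix (Fin N) (Fin N) L} (h : IsNilpotent (M * M - M)) :
    ∃ m : ℕ, M.trace = m := by
  classical
  have hroot : ∀ l ∈ M.charpoly.roots, l = 0 ∨ l = 1 := by
    intro l hl
    have h1 : l ∈ spectrum L M := Matrix.mem_spectrum_of_isRoot_charpoly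
      (Polynomial.isRoot_of_mem_roots hl)
    have h2 : Module.End.HasEigenvalue (Matrix.toLin' M) l := by
      rw [Module.End.hasEigenvalue_iff_mem_spectrum, Matrix.spectrum_toLin']
      exact h1
    obtain ⟨v, hv⟩ := h2.exists_hasEigenvector
    have hMv : M *ᵥ v = l • v := by
      have := hv.apply_eq_smul
      rwa [Matrix.toLin'_apply] at this
    have h3 : (M * M - M) *ᵥ v = (l * l - l) • v := by
      rw [Matrix.sub_mulVec, ← Matrix.mulVec_mulVec, hMv, Matrix.mulVec_smul, hMv, smul_smul,
        sub_smul]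
    have h4 : ∀ k : ℕ, ((M * M - M) ^ k) *ᵥ v = ((l * l - l) ^ k) • v := by
      intro k
      induction k with
      | zero => simp
      | succ k ih =>
        rw [pow_succ, ← Matrix.mulVec_mulVec, h3, Matrix.mulVec_smul, ih, smul_smul, pow_succ,
          mul_comm]
    obtain ⟨k, hk⟩ := h
    have h5 := h4 k
    rw [hk, Matrix.zero_mulVec] at h5
    have h6 : (l * l - l) ^ k = 0 := by
      rcases smul_eq_zero.1 h5.symm with h | h
      · exact h
      · exact absurd h hv.2
    have h7 : l * (l - 1) = 0 := by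
      have h8 : l * l - l = 0 := by
        rcases Nat.eq_zero_or_pos k with rfl | hk
        · rw [pow_zero] at h6; exact absurd h6 one_ne_zero
        · exact pow_eq_zero_iff (by omega) |>.1 h6
      linear_combination h8
    rcases mul_eq_zero.1 h7 with h | h
    · exact Or.inl h
    · exact Or.inr (by linear_combination h)
  rw [Matrix.trace_eq_sum_roots_charpoly]
  generalize M.charpoly.roots = s at hroot
  induction s using Multiset.induction_on with
  | empty => exact ⟨0, by simp⟩
  | cons a s ih =>
    obtain ⟨m, hm⟩ := ih (fun l hl => hroot l (Multiset.mem_cons_of_mem hl))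
    rcases hroot a (Multiset.mem_cons_self _ _) with rfl | rfl
    · exact ⟨m, by rw [Multiset.sum_cons, hm, zero_add]⟩
    · exact ⟨m + 1, by rw [Multiset.sum_cons, hm]; push_cast; ring⟩

end Traces

end Pool.Agent.W539.Sig
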