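import Pool.Agent.W539.Sig.Alg

/-!
# The trace form of an algebra of operators with an involution has nonnegative signature
-/

open Matrix Finset TensorProduct
open scoped ComplexConjugate

namespace Pool.Agent.W539.Sig

section Alg

variable {L : Type*} [Field L] [CharZero L] [IsAlgClosed L] [Algebra ℂ L] {N : ℕ} {S : Type*} [Ring S]
  [Algebra ℚ S]

/-- The complexified representation. -/
noncomputable def rhoC (ρ : S →+* Matrix (Fin N) (Fin N) L) :
    (ℂ ⊗[ℚ] S) →ₐ[ℂ] Matrix (Fin N) (Fin N) L :=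
  Algebra.TensorProduct.lift (Algebra.ofId ℂ (Matrix (Fin N) (Fin N) L)) ρ.toRatAlgHom
    (fun x y => Algebra.commutes x (ρ y))

omit [IsAlgClosed L] in
lemma rhoC_tmul (ρ : S →+* Matrix (Fin N) (Fin N) L) (c : ℂ) (s : S) :
    rhoC ρ (c ⊗ₜ s) = c • ρ s := by
  rw [Algebra.smul_def]
  exact Algebra.TensorProduct.lift_tmul (Algebra.ofId ℂ (Matrix (Fin N) (Fin N) L))
    ρ.toRatAlgHom (fun x y => Algebra.commutes x (ρ y)) c s

/-- The complexified functional. -/
noncomputable def TC (T : S →ₗ[ℚ] ℚ) : (ℂ ⊗[ℚ] S) →ₗ[ℂ] ℂ :=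
  (TensorProduct.AlgebraTensorModule.rid ℚ ℂ ℂ).toLinearMap ∘ₗ T.baseChange ℂ

lemma TC_tmul (T : S →ₗ[ℚ] ℚ) (c : ℂ) (s : S) : TC T (c ⊗ₜ s) = c * (T s : ℂ) := by
  rw [TC, LinearMap.comp_apply, LinearMap.baseChange_tmul]
  change (TensorProduct.AlgebraTensorModule.rid ℚ ℂ ℂ) (c ⊗ₜ T s) = _
  rw [TensorProduct.AlgebraTensorModule.rid_tmul, Rat.smul_def, mul_comm]

variable {ρ : S →+* Matrix (Fin N) (Fin N) L} {T : S →ₗ[ℚ] ℚ}

omit [IsAlgClosed L] in
lemma TC_trace (hT : ∀ s, ((T s : ℚ) : L) = (ρ s).trace) (x : ℂ ⊗[ℚ] S) :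
    algebraMap ℂ L (TC T x) = (rhoC ρ x).trace := by
  induction x using TensorProduct.induction_on with
  | zero => simp
  | add x y hx hy => rw [map_add, map_add, map_add, trace_add, hx, hy]
  | tmul c s =>
    rw [TC_tmul, rhoC_tmul, trace_smul, ← hT, map_mul, map_ratCast, Algebra.smul_def]

omit [IsAlgClosed L] in
lemma TC_comm (hT : ∀ s, ((T s : ℚ) : L) = (ρ s).trace) (x y : ℂ ⊗[ℚ] S) :
    TC T (x * y) = TC T (y * x) := by
  apply (algebraMap ℂ L).injective
  rw [TC_trace hT, TC_trace hT, map_mul, map_mul, trace_mul_comm]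

/-- The complexified involution. -/
noncomputable def stC (st : S →ₗ[ℚ] S) : (ℂ ⊗[ℚ] S) →ₗ[ℚ] (ℂ ⊗[ℚ] S) :=
  TensorProduct.map ((starRingEnd ℂ).toRatAlgHom.toLinearMap) st

lemma stC_tmul (st : S →ₗ[ℚ] S) (c : ℂ) (s : S) : stC st (c ⊗ₜ s) = (conj c) ⊗ₜ st s := rfl

lemma stC_smul (st : S →ₗ[ℚ] S) (c : ℂ) (x : ℂ ⊗[ℚ] S) : stC st (c • x) = conj c • stC st x := by
  induction x using TensorProduct.induction_on with
  | zero => simp
  | add x y hx hy => rw [smul_add, map_add, map_add, smul_add, hx, hy]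
  | tmul a s =>
    rw [TensorProduct.smul_tmul', stC_tmul, stC_tmul, TensorProduct.smul_tmul', smul_eq_mul,
      smul_eq_mul, map_mul]

lemma stC_mul {st : S →ₗ[ℚ] S} (h : ∀ x y, st (x * y) = st y * st x) (x y : ℂ ⊗[ℚ] S) :
    stC st (x * y) = stC st y * stC st x := by
  induction x using TensorProduct.induction_on with
  | zero => simp
  | add x x' hx hx' => rw [add_mul, map_add, map_add, mul_add, hx, hx']
  | tmul a s =>
    induction y using TensorProduct.induction_on with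
    | zero => simp
    | add y y' hy hy' => rw [mul_add, map_add, map_add, add_mul, hy, hy']
    | tmul b t =>
      rw [Algebra.TensorProduct.tmul_mul_tmul, stC_tmul, stC_tmul, stC_tmul,
        Algebra.TensorProduct.tmul_mul_tmul, h, map_mul, mul_comm (conj a)]

lemma stC_stC {st : S →ₗ[ℚ] S} (h : ∀ x, st (st x) = x) (x : ℂ ⊗[ℚ] S) :
    stC st (stC st x) = x := by
  induction x using TensorProduct.induction_on with
  | zero => simp
  | add x y hx hy => rw [map_add, map_add, hx, hy]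
  | tmul a s => rw [stC_tmul, stC_tmul, h, Complex.conj_conj]

lemma TC_stC {st : S →ₗ[ℚ] S} (h : ∀ x, T (st x) = T x) (x : ℂ ⊗[ℚ] S) :
    TC T (stC st x) = conj (TC T x) := by
  induction x using TensorProduct.induction_on with
  | zero => simp
  | add x y hx hy => rw [map_add, map_add, map_add, map_add, hx, hy]
  | tmul a s => rw [stC_tmul, TC_tmul, TC_tmul, h, map_mul]; simp

/-- The radical. -/
noncomputable def rad (hT : ∀ s, ((T s : ℚ) : L) = (ρ s).trace) : Ideal (ℂ ⊗[ℚ] S) where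
  carrier := {x | ∀ y, TC T (x * y) = 0}
  add_mem' := by
    intro a b ha hb y
    rw [add_mul, map_add, ha, hb, add_zero]
  zero_mem' := by intro y; rw [zero_mul, map_zero]
  smul_mem' := by
    intro c x hx y
    rw [smul_eq_mul, mul_assoc, TC_comm hT, mul_assoc]
    exact hx _

omit [IsAlgClosed L] in
lemma mem_rad {hT : ∀ s, ((T s : ℚ) : L) = (ρ s).trace} {x : ℂ ⊗[ℚ] S} :
    x ∈ rad hT ↔ ∀ y, TC T (x * y) = 0 := Iff.rfl

instance (hT : ∀ s, ((T s : ℚ) : L) = (ρ s).trace) : (rad hT).IsTwoSided :=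
  ⟨fun {a} b ha y => by rw [mul_assoc]; exact ha _⟩

omit [IsAlgClosed L] in
lemma stC_rad {hT : ∀ s, ((T s : ℚ) : L) = (ρ s).trace} {st : S →ₗ[ℚ] S}
    (hmul : ∀ x y, st (x * y) = st y * st x) (hinv : ∀ x, st (st x) = x)
    (hstT : ∀ x, T (st x) = T x) {x : ℂ ⊗[ℚ] S} (hx : x ∈ rad hT) : stC st x ∈ rad hT := by
  rw [mem_rad]
  intro y
  rw [← stC_stC hinv y, ← stC_mul hmul, TC_stC hstT, TC_comm hT, mem_rad.1 hx, map_zero]

/-- **The trace form has nonnegative signature**, in terms of an orthogonal basis. -/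
theorem no_excess (hT : ∀ s, ((T s : ℚ) : L) = (ρ s).trace) {st : S →ₗ[ℚ] S}
    (hmul : ∀ x y, st (x * y) = st y * st x) (hinv : ∀ x, st (st x) = x)
    (hstT : ∀ x, T (st x) = T x) {ι : Type} [Fintype ι] [DecidableEq ι] (x : ι → S) (a : ι → ℚ)
    (hxx : ∀ i, T (x i * st (x i)) = a i) (hx0 : ∀ i j, i ≠ j → T (x i * st (x j)) = 0)
    (hspan : ∀ s : S, ∃ q : ι → ℚ, ∀ y, T ((s - ∑ i, q i • x i) * y) = 0) :
    (univ.filter (fun i => a i < 0)).card ≤ (univ.filter (fun i => ¬ a i < 0)).card := by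
  classical
  let J : Ideal (ℂ ⊗[ℚ] S) := rad hT
  let π : (ℂ ⊗[ℚ] S) →ₐ[ℂ] ((ℂ ⊗[ℚ] S) ⧸ J) := Ideal.Quotient.mkₐ ℂ J
  have hπs : Function.Surjective π := Ideal.Quotient.mkₐ_surjective ℂ J
  have hπ0 : ∀ x, π x = 0 ↔ ∀ y, TC T (x * y) = 0 := fun x => Ideal.Quotient.eq_zero_iff_mem
  have hfam : ∀ b : (ℂ ⊗[ℚ] S) ⧸ J,
      b ∈ Submodule.span ℂ (Set.range fun i => π ((1 : ℂ) ⊗ₜ[ℚ] x i)) := by
    intro b
    obtain ⟨y, rfl⟩ := hπs b
    induction y using TensorProduct.induction_on with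
    | zero => rw [map_zero]; exact Submodule.zero_mem _
    | add y z hy hz => rw [map_add]; exact Submodule.add_mem _ hy hz
    | tmul c s =>
      obtain ⟨q, hq⟩ := hspan s
      have h1 : π ((1 : ℂ) ⊗ₜ[ℚ] (s - ∑ i, q i • x i)) = 0 := by
        rw [hπ0]
        intro y
        induction y using TensorProduct.induction_on with
        | zero => rw [mul_zero, map_zero]
        | add y z hy hz => rw [mul_add, map_add, hy, hz, add_zero]
        | tmul c t =>
          rw [Algebra.TensorProduct.tmul_mul_tmul, TC_tmul, hq, Rat.cast_zero, mul_zero]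
      have h2 : π (c ⊗ₜ[ℚ] s) = c • ∑ i, (q i : ℂ) • π ((1 : ℂ) ⊗ₜ[ℚ] x i) := by
        have h3 : c ⊗ₜ[ℚ] s = c • ((1 : ℂ) ⊗ₜ[ℚ] s) := by
          rw [TensorProduct.smul_tmul', smul_eq_mul, mul_one]
        rw [TensorProduct.tmul_sub, map_sub, sub_eq_zero] at h1
        rw [h3, map_smul, h1, TensorProduct.tmul_sum, map_sum]
        congr 1
        apply Finset.sum_congr rfl
        intro i _
        rw [TensorProduct.tmul_smul, ← map_smul]
        congr 1
      rw [h2]
      apply Submodule.smul_mem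
      apply Submodule.sum_mem
      intro i _
      exact Submodule.smul_mem _ _ (Submodule.subset_span ⟨i, rfl⟩)
  have htop : Submodule.span ℂ (Set.range fun i => π ((1 : ℂ) ⊗ₜ[ℚ] x i)) = ⊤ :=
    eq_top_iff.2 fun b _ => hfam b
  have hfin : FiniteDimensional ℂ ((ℂ ⊗[ℚ] S) ⧸ J) :=
    Module.Finite.of_fg_top (by rw [← htop]; exact Submodule.fg_span (Set.finite_range _))
  have hrank : Module.finrank ℂ ((ℂ ⊗[ℚ] S) ⧸ J) ≤ Fintype.card ι := by
    rw [← finrank_top ℂ, ← htop]
    exact finrank_range_le_card _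
  -- the functional
  have hker : J.restrictScalars ℂ ≤ LinearMap.ker (TC T) := by
    intro y hy
    rw [LinearMap.mem_ker]
    have := (mem_rad (hT := hT)).1 hy 1
    rwa [mul_one] at this
  let TB : ((ℂ ⊗[ℚ] S) ⧸ J) →ₗ[ℂ] ℂ := ((J.restrictScalars ℂ).liftQ (TC T) hker) ∘ₗ
    (Submodule.Quotient.restrictScalarsEquiv ℂ J).symm.toLinearMap
  have hTB : ∀ y, TB (π y) = TC T y := fun y => rfl
  -- the involution
  let sB : ((ℂ ⊗[ℚ] S) ⧸ J) → ((ℂ ⊗[ℚ] S) ⧸ J) := fun b => π (stC st (Function.surjInv hπs b))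
  have hsB : ∀ y, sB (π y) = π (stC st y) := by
    intro y
    rw [← sub_eq_zero]
    change π (stC st (Function.surjInv hπs (π y))) - π (stC st y) = 0
    rw [← map_sub, ← map_sub]
    have h1 : π (Function.surjInv hπs (π y) - y) = 0 := by
      rw [map_sub, Function.surjInv_eq hπs, sub_self]
    have h2 := stC_rad (hT := hT) hmul hinv hstT (x := Function.surjInv hπs (π y) - y)
      ((hπ0 _).1 h1)
    exact (hπ0 _).2 h2
  have hstar : IsStar sB :=
    { add := fun b c => by
        obtain ⟨y, rfl⟩ := hπs b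
        obtain ⟨z, rfl⟩ := hπs c
        rw [← map_add, hsB, hsB, hsB, map_add, map_add]
      smul := fun r b => by
        obtain ⟨y, rfl⟩ := hπs b
        rw [← map_smul, hsB, hsB, stC_smul, map_smul]
      mul := fun b c => by
        obtain ⟨y, rfl⟩ := hπs b
        obtain ⟨z, rfl⟩ := hπs c
        rw [← map_mul, hsB, hsB, hsB, stC_mul hmul, map_mul]
      inv := fun b => by
        obtain ⟨y, rfl⟩ := hπs b
        have h1 := hsB (stC st y)
        rw [← hsB y, stC_stC hinv] at h1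
        exact h1 }
  obtain ⟨κ, hκ, F, hF1, hF2⟩ := exists_half hstar TB
    (fun b c => by
      obtain ⟨y, rfl⟩ := hπs b
      obtain ⟨z, rfl⟩ := hπs c
      rw [← map_mul, ← map_mul, hTB, hTB, TC_comm hT])
    (fun e he => by
      obtain ⟨y, rfl⟩ := hπs e
      have h1 : π (y * y - y) = 0 := by rw [map_sub, map_mul, he, sub_self]
      rw [hπ0] at h1
      have h2 : IsNilpotent (rhoC ρ y * rhoC ρ y - rhoC ρ y) := by
        apply nilp_of_trace
        intro r
        rw [← map_mul, ← map_sub, ← map_pow, ← TC_trace hT, pow_succ', h1, map_zero]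
      obtain ⟨m, hm⟩ := trace_nat h2
      refine ⟨m, ?_⟩
      rw [hTB]
      apply (algebraMap ℂ L).injective
      rw [TC_trace hT, hm, map_natCast])
    (fun b hb => by
      obtain ⟨y, rfl⟩ := hπs b
      obtain ⟨k, hk⟩ := hb
      rw [← map_pow, hπ0] at hk
      have h2 : IsNilpotent (rhoC ρ y ^ (k + 1)) := by
        apply nilp_of_trace
        intro r
        rw [← pow_mul, ← map_pow, ← TC_trace hT]
        have h3 : (k + 1) * (r + 1) = k + (1 + (k + 1) * r) := by ring
        rw [h3, pow_add, hk, map_zero]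
      have h3 : IsNilpotent (rhoC ρ y) := by
        obtain ⟨j, hj⟩ := h2
        exact ⟨(k + 1) * j, by rw [pow_mul, hj]⟩
      have h4 := (Matrix.isNilpotent_trace_of_isNilpotent h3).eq_zero
      rw [hTB]
      apply (algebraMap ℂ L).injective
      rw [TC_trace hT, h4, map_zero])
    (fun b hb => by
      obtain ⟨y, rfl⟩ := hπs b
      rw [hπ0]
      intro z
      have := hb (π z)
      rwa [← map_mul, hTB] at this)
  by_contra hcon
  have hcon := not_le.1 hcon
  have hcard : Fintype.card ι = (univ.filter (fun i => a i < 0)).card +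
      (univ.filter (fun i => ¬ a i < 0)).card := by
    rw [Finset.card_filter_add_card_filter_not, Finset.card_univ]
  have hlt : Fintype.card κ < (univ.filter (fun i => a i < 0)).card := by omega
  -- a vector in the negative part
  let g : ({i // a i < 0} → ℂ) →ₗ[ℂ] (ℂ ⊗[ℚ] S) :=
    Fintype.linearCombination ℂ (fun i : {i // a i < 0} => (1 : ℂ) ⊗ₜ[ℚ] x i.1)
  have hg : ∀ c, g c = ∑ i, c i ⊗ₜ[ℚ] x i.1 := by
    intro c
    change Fintype.linearCombination ℂ _ c = _
    rw [Fintype.linearCombination_apply]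
    apply Finset.sum_congr rfl
    intro i _
    rw [TensorProduct.smul_tmul', smul_eq_mul, mul_one]
  obtain ⟨c, hc, hc0⟩ : ∃ c, F (π (g c)) = 0 ∧ c ≠ 0 := by
    by_contra hno
    push Not at hno
    have hinj : Function.Injective (F ∘ₗ π.toLinearMap ∘ₗ g) := by
      rw [← LinearMap.ker_eq_bot, LinearMap.ker_eq_bot']
      intro c hc
      exact hno c hc
    have h1 := LinearMap.finrank_le_finrank_of_injective hinj
    rw [Module.finrank_fintype_fun_eq_card, Module.finrank_fintype_fun_eq_card,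
      Fintype.card_subtype] at h1
    omega
  have h1 := hF2 _ hc
  rw [hsB, ← map_mul, hTB, hg, map_sum, Finset.sum_mul_sum, map_sum] at h1
  have h2 : ∀ i, TC T (∑ j, c i ⊗ₜ[ℚ] x i.1 * stC st (c j ⊗ₜ[ℚ] x j.1)) =
      ((Complex.normSq (c i) * a i.1 : ℝ) : ℂ) := by
    intro i
    rw [map_sum, Finset.sum_eq_single i]
    · rw [stC_tmul, Algebra.TensorProduct.tmul_mul_tmul, TC_tmul, hxx, Complex.mul_conj]
      push_cast
      rfl
    · intro j _ hj
      rw [stC_tmul, Algebra.TensorProduct.tmul_mul_tmul, TC_tmul,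
        hx0 _ _ (fun h => hj (Subtype.ext h.symm))]
      simp
    · intro h; exact absurd (Finset.mem_univ _) h
  rw [Finset.sum_congr rfl (fun i _ => h2 i), ← Complex.ofReal_sum, Complex.ofReal_re] at h1
  obtain ⟨i, hi⟩ : ∃ i, c i ≠ 0 := by
    by_contra hall
    push Not at hall
    exact hc0 (funext hall)
  have h3 : ∑ i, Complex.normSq (c i) * (a i.1 : ℝ) < 0 := by
    refine Finset.sum_neg' (fun j _ => ?_) ⟨i, Finset.mem_univ _, ?_⟩
    · have := j.2
      have h4 : ((a j.1 : ℚ) : ℝ) < 0 := by exact_mod_cast this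
      exact mul_nonpos_of_nonneg_of_nonpos (Complex.normSq_nonneg _) h4.le
    · have := i.2
      have h4 : ((a i.1 : ℚ) : ℝ) < 0 := by exact_mod_cast this
      exact mul_neg_of_pos_of_neg (Complex.normSq_pos.2 hi) h4
  linarith

end Alg

end Pool.Agent.W539.Sig
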