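import Pool.Agent.W539.Sig.Core

/-!
# The trace form of an algebra of operators with an involution has nonnegative signature
-/

open Matrix Finset TensorProduct

universe u v

namespace Pool.Agent.W539.Sig

/-- A common extension of a field of characteristic zero and the complex numbers. -/
lemma exists_ext (K : Type v) [Field K] [CharZero K] : ∃ (L : Type v) (_ : Field L)
    (_ : CharZero L) (_ : IsAlgClosed L) (_ : Algebra ℂ L), Nonempty (K →+* L) := by
  obtain ⟨M, hM⟩ := Ideal.exists_maximal (K ⊗[ℚ] ℂ)
  let _ : Field ((K ⊗[ℚ] ℂ) ⧸ M) := Ideal.Quotient.field M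
  let L0 : Type v := (K ⊗[ℚ] ℂ) ⧸ M
  let _ : Field L0 := Ideal.Quotient.field M
  let a : K →+* L0 := (Ideal.Quotient.mk M).comp
    (Algebra.TensorProduct.includeLeftRingHom (R := ℚ) (A := K) (B := ℂ))
  let b : ℂ →+* L0 := (Ideal.Quotient.mk M).comp
    (Algebra.TensorProduct.includeRight (R := ℚ) (A := K) (B := ℂ)).toRingHom
  let i : L0 →+* AlgebraicClosure L0 := algebraMap L0 (AlgebraicClosure L0)
  refine ⟨AlgebraicClosure L0, inferInstance,
    charZero_of_injective_ringHom ((i.comp b).injective), inferInstance,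
    (i.comp b).toAlgebra, ⟨i.comp a⟩⟩

section

variable {K : Type v} [Field K] [CharZero K] {V : Type u} [AddCommGroup V] [Module K V]
  [Module.Finite K V] {S : Type*} [Ring S] [Algebra ℚ S]

/-- **The trace form has nonnegative signature.** -/
theorem signature {ρ : S →+* Module.End K V} {T : S →ₗ[ℚ] ℚ}
    (hT : ∀ s, ((T s : ℚ) : K) = LinearMap.trace K V (ρ s)) {st : S →ₗ[ℚ] S}
    (hmul : ∀ x y, st (x * y) = st y * st x) (hinv : ∀ x, st (st x) = x)
    (hstT : ∀ x, T (st x) = T x) {r : ℕ} (z : Fin r → S) (hz : ∀ i, T (z i * st (z i)) < 0)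
    (hz0 : ∀ i j, i ≠ j → T (z i * st (z j)) = 0) :
    ∃ w : Fin r → S, (∀ i, 0 < T (w i * st (w i))) ∧
      ∀ i j, i ≠ j → T (w i * st (w j)) = 0 := by
  classical
  obtain ⟨L, _, _, _, _, ⟨a⟩⟩ := exists_ext K
  set N := Module.finrank K V
  let b := Module.finBasis K V
  let ρL : S →+* Matrix (Fin N) (Fin N) L := (a.mapMatrix).comp
    ((LinearMap.toMatrixAlgEquiv b).toRingEquiv.toRingHom.comp ρ)
  have hTL : ∀ s, ((T s : ℚ) : L) = (ρL s).trace := by
    intro s
    have h1 : (ρL s).trace = a ((LinearMap.toMatrixAlgEquiv b (ρ s)).trace) := by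
      change ((LinearMap.toMatrixAlgEquiv b (ρ s)).map a).trace = _
      rw [trace, trace, map_sum]
      rfl
    rw [h1, ← map_ratCast a, hT, LinearMap.trace_eq_matrix_trace K b]
    rfl
  -- bilinearity and symmetry
  let β : S → S → ℚ := fun x y => T (x * st y)
  have hβ : ∀ x y, β x y = T (x * st y) := fun _ _ => rfl
  have hsymm : ∀ x y, β x y = β y x := by
    intro x y
    rw [hβ, hβ, ← hstT, hmul, hinv]
  have hβadd : ∀ x y t, β (x + y) t = β x t + β y t := by
    intro x y t; rw [hβ, hβ, hβ, add_mul, map_add]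
  have hβsub : ∀ x y t, β (x - y) t = β x t - β y t := by
    intro x y t; rw [hβ, hβ, hβ, sub_mul, map_sub]
  have hβsmul : ∀ (q : ℚ) x t, β (q • x) t = q * β x t := by
    intro q x t; rw [hβ, hβ, smul_mul_assoc, map_smul, smul_eq_mul]
  have hβsum : ∀ {ι : Type} (s : Finset ι) (f : ι → S) t, β (∑ i ∈ s, f i) t =
      ∑ i ∈ s, β (f i) t := by
    intro ι s f t; simp only [hβ, Finset.sum_mul, map_sum]
  -- the bound
  have hbound : ∀ {ι : Type} [Fintype ι] (x : ι → S), (∀ i, β (x i) (x i) ≠ 0) →
      (∀ i j, i ≠ j → β (x i) (x j) = 0) → Fintype.card ι ≤ N * N := by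
    intro ι _ x h1 h2
    have hli : LinearIndependent L (fun i => ρL (x i)) := by
      rw [Fintype.linearIndependent_iff]
      intro g hg i
      have h3 := congrArg (fun M => (M * ρL (st (x i))).trace) hg
      simp only [Finset.sum_mul, trace_sum, zero_mul, trace_zero, smul_mul_assoc, trace_smul,
        ← map_mul, ← hTL] at h3
      rw [Finset.sum_eq_single i] at h3
      · rw [smul_eq_mul] at h3
        rcases mul_eq_zero.1 h3 with h | h
        · exact h
        · exfalso
          apply h1 i
          rw [hβ]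
          exact_mod_cast h
      · intro j _ hj
        have := h2 j i hj
        rw [hβ] at this
        rw [this, Rat.cast_zero, smul_zero]
      · intro h; exact absurd (Finset.mem_univ _) h
    have := hli.fintype_card_le_finrank
    rwa [Module.finrank_matrix, Module.finrank_self, Fintype.card_fin, mul_one] at this
  -- the maximal family
  let P : ℕ → Prop := fun m => ∃ y : Fin m → S,
    (∀ i, β (Sum.elim z y i) (Sum.elim z y i) ≠ 0) ∧
    ∀ i j, i ≠ j → β (Sum.elim z y i) (Sum.elim z y j) = 0
  have hP0 : P 0 := by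
    refine ⟨Fin.elim0, ?_, ?_⟩
    · rintro (i | i)
      · exact (hz i).ne
      · exact i.elim0
    · rintro (i | i) (j | j) hij
      · exact hz0 i j (fun h => hij (by rw [h]))
      · exact j.elim0
      · exact i.elim0
      · exact i.elim0
  have hPb : ∀ m, P m → m ≤ N * N := by
    rintro m ⟨y, h1, h2⟩
    have := hbound _ h1 h2
    rw [Fintype.card_sum, Fintype.card_fin, Fintype.card_fin] at this
    omega
  obtain ⟨m, hm, hm'⟩ : ∃ m, P m ∧ ¬ P (m + 1) := by
    by_contra hno
    push Not at hno
    have hall : ∀ m, P m := by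
      intro m
      induction m with
      | zero => exact hP0
      | succ m ih => exact hno m ih
    have := hPb _ (hall (N * N + 1))
    omega
  obtain ⟨y, hy1, hy2⟩ := hm
  set x : Fin r ⊕ Fin m → S := Sum.elim z y with hx
  have hmax : ∀ u, (∀ i, β u (x i) = 0) → β u u = 0 := by
    intro u hu
    by_contra hne
    apply hm'
    refine ⟨Fin.cons u y, ?_, ?_⟩
    · rintro (i | i)
      · exact hy1 (Sum.inl i)
      · refine Fin.cases ?_ (fun i => ?_) i
        · exact hne
        · exact hy1 (Sum.inr i)
    · rintro (i | i) (j | j) hij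
      · exact hy2 (Sum.inl i) (Sum.inl j) (fun h => hij (by rw [Sum.inl.inj h]))
      · revert hij
        refine Fin.cases (fun _ => ?_) (fun j _ => ?_) j
        · change β (z i) u = 0
          rw [hsymm]; exact hu (Sum.inl i)
        · exact hy2 (Sum.inl i) (Sum.inr j) (by simp)
      · revert hij
        refine Fin.cases (fun _ => ?_) (fun i _ => ?_) i
        · exact hu (Sum.inl j)
        · exact hy2 (Sum.inr i) (Sum.inl j) (by simp)
      · revert hij
        refine Fin.cases ?_ (fun i => ?_) i <;> refine Fin.cases ?_ (fun j => ?_) j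
        · intro hij; exact absurd rfl hij
        · intro _; exact hu (Sum.inr j)
        · intro _
          change β (y i) u = 0
          rw [hsymm]; exact hu (Sum.inr i)
        · intro hij
          exact hy2 (Sum.inr i) (Sum.inr j) (fun h => hij (by
            rw [Sum.inr.inj h]))
  have hproj : ∀ s : S, ∀ j, β (s - ∑ i, (β s (x i) / β (x i) (x i)) • x i) (x j) = 0 := by
    intro s j
    rw [hβsub, hβsum, Finset.sum_eq_single j]
    · rw [hβsmul, div_mul_cancel₀ _ (hy1 j), sub_self]
    · intro i _ hi
      rw [hβsmul, hy2 i j hi, mul_zero]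
    · intro h; exact absurd (Finset.mem_univ _) h
  have hspan : ∀ s : S, ∃ q : Fin r ⊕ Fin m → ℚ, ∀ y, T ((s - ∑ i, q i • x i) * y) = 0 := by
    intro s
    refine ⟨fun i => β s (x i) / β (x i) (x i), fun y => ?_⟩
    set s' := s - ∑ i, (β s (x i) / β (x i) (x i)) • x i with hs'
    have h1 := hproj s
    rw [← hs'] at h1
    set t := st y with ht
    set t' := t - ∑ i, (β t (x i) / β (x i) (x i)) • x i with ht'
    have h2 := hproj t
    rw [← ht'] at h2
    have h3 : β s' t' = 0 := by
      have e1 := hmax s' h1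
      have e2 := hmax t' h2
      have e3 := hmax (s' + t') (fun i => by rw [hβadd, h1, h2, add_zero])
      rw [hβadd, hsymm s' (s' + t'), hsymm t' (s' + t'), hβadd, hβadd, e1, e2, hsymm t' s'] at e3
      linarith
    have h4 : β s' t = 0 := by
      have e1 : t = t' + ∑ i, (β t (x i) / β (x i) (x i)) • x i := by rw [ht']; abel
      rw [hsymm, e1, hβadd, hsymm t', h3, zero_add, hβsum]
      apply Finset.sum_eq_zero
      intro i _
      rw [hβsmul, hsymm (x i) s', h1, mul_zero]
    rw [hβ, ht, hinv] at h4
    exact h4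
  have key := no_excess (hT := hTL) hmul hinv hstT x (fun i => β (x i) (x i))
    (fun i => rfl) (fun i j hij => hy2 i j hij) hspan
  have hr : r ≤ (univ.filter (fun i => β (x i) (x i) < 0)).card := by
    have h1 : (univ.image (Sum.inl : Fin r → Fin r ⊕ Fin m)) ⊆
        univ.filter (fun i => β (x i) (x i) < 0) := by
      intro i hi
      rw [Finset.mem_image] at hi
      obtain ⟨j, -, rfl⟩ := hi
      rw [Finset.mem_filter]
      exact ⟨Finset.mem_univ _, hz j⟩
    have h2 := Finset.card_le_card h1
    rwa [Finset.card_image_of_injective _ Sum.inl_injective, Finset.card_univ,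
      Fintype.card_fin] at h2
  have hr2 : Fintype.card (Fin r) ≤
      Fintype.card {i // ¬ β (x i) (x i) < 0} := by
    rw [Fintype.card_fin, Fintype.card_subtype]
    omega
  obtain ⟨e⟩ := Function.Embedding.nonempty_of_card_le hr2
  refine ⟨fun i => x (e i).1, fun i => ?_, fun i j hij => ?_⟩
  · have h1 := (e i).2
    have h2 := hy1 (e i).1
    exact lt_of_le_of_ne (not_lt.1 h1) (Ne.symm h2)
  · exact hy2 _ _ (fun h => hij (e.injective (Subtype.ext h)))

end

end Pool.Agent.W539.Sig
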