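import Pool.Agent.H914R2.GConv
import Pool.Agent.W539.Sig.Main

/-!
# The ring of algebraic operators of degree zero which commute with the Lefschetz operator
-/

open CategoryTheory AlgebraicGeometry Finset

universe u v

namespace Pool.Agent.W539.Sig

open Pool.Agent.H914 Pool.Agent.H914.VarClass Pool.Agent.H914.VarClass.Obj
  Pool.Agent.H914.WeilCohomology

section Lin

variable {K : Type*} [Field K] {V : Type*} [AddCommGroup V] [Module K V] [Module.Finite K V]

/-- The trace of the adjoint operator. -/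
lemma trace_adj (B : V →ₗ[K] V →ₗ[K] K) (hB : ∀ b, (∀ a, B a b = 0) → b = 0)
    {y y' : Module.End K V} (h : ∀ a b, B (y a) b = B a (y' b)) :
    LinearMap.trace K V y' = LinearMap.trace K V y := by
  have hinj : Function.Injective B.flip := by
    rw [injective_iff_map_eq_zero]
    intro b hb
    exact hB b (fun a => by rw [← LinearMap.flip_apply, hb, LinearMap.zero_apply])
  let e : V ≃ₗ[K] Module.Dual K V :=
    LinearEquiv.ofInjectiveOfFinrankEq B.flip hinj (Subspace.dual_finrank_eq).symm
  have h1 : e.conj y' = Module.Dual.transpose y := by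
    apply LinearMap.ext
    intro f
    obtain ⟨b, rfl⟩ := e.surjective f
    rw [LinearEquiv.conj_apply_apply, LinearEquiv.symm_apply_apply]
    apply LinearMap.ext
    intro a
    change B a (y' b) = B (y a) b
    rw [h]
  rw [← LinearMap.trace_conj' y' e, h1, LinearMap.trace_transpose']

end Lin

variable {k : Type u} [Field k] {𝒱 : VarClass k} {ops : CycleOps 𝒱}
  {W : WeilCohomology.{u, v} ops} {X : 𝒱.Obj}

lemma map_swap_swap (c : W.H (X.prod X)) : W.map (swap X X) (W.map (swap X X) c) = c := by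
  refine W.kunneth_induction (p := fun c => W.map (swap X X) (W.map (swap X X) c) = c) ?_ ?_ c
  · intro a b ha hb
    rw [map_add, map_add, ha, hb]
  · intro i j a _ b _
    rw [map_mul (W.map (swap X X)), ← W.map_comp, ← W.map_comp, swap_fst, swap_snd,
      map_mul (W.map (swap X X)), ← W.map_comp, ← W.map_comp, swap_fst, swap_snd]

/-- The transposition. -/
noncomputable def tp (W : WeilCohomology.{u, v} ops) (X : 𝒱.Obj) :
    Module.End W.K (W.H X) →ₗ[W.K] Module.End W.K (W.H X) :=
  (corrEquiv W X).toLinearMap ∘ₗ (W.map (swap X X)).toLinearMap ∘ₗ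
    (corrEquiv W X).symm.toLinearMap

lemma tp_corr (c : W.H (X.prod X)) : tp W X (W.corr c) = W.corr (W.map (swap X X) c) := by
  change corrEquiv W X (W.map (swap X X) ((corrEquiv W X).symm (W.corr c))) = _
  rw [corrEquiv_symm_corr]
  rfl

lemma rop_tp {y : Module.End W.K (W.H X)} (hy : ROp W X 0 y) : ROp W X 0 (tp W X y) := by
  obtain ⟨z, hz, rfl⟩ := cyc_of_rop hy
  rw [tp_corr, ← W.cl_pull]
  exact rop_of_cyc (ops.pull_mem _ hz)

lemma tp_adj {y : Module.End W.K (W.H X)} (hy : ROp W X 0 y) (a b : W.H X) :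
    W.tr X (y a * b) = W.tr X (a * tp W X y b) := by
  obtain ⟨z, hz, rfl⟩ := cyc_of_rop hy
  rw [tp_corr]
  exact tr_corr_swap (W.cl_mem hz) a b

lemma tp_unique {y y' : Module.End W.K (W.H X)} (hy : ROp W X 0 y)
    (h : ∀ a b, W.tr X (y a * b) = W.tr X (a * y' b)) : tp W X y = y' := by
  apply LinearMap.ext
  intro b
  rw [← sub_eq_zero]
  apply nondeg_right
  intro a
  rw [mul_sub, map_sub, ← tp_adj hy, h, sub_self]

lemma tp_mul {x y : Module.End W.K (W.H X)} (hx : ROp W X 0 x) (hy : ROp W X 0 y) :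
    tp W X (x * y) = tp W X y * tp W X x := by
  apply tp_unique (rop_mul0 hx hy)
  intro a b
  rw [Module.End.mul_apply, Module.End.mul_apply, tp_adj hx, tp_adj hy]

lemma tp_tp {y : Module.End W.K (W.H X)} (hy : ROp W X 0 y) : tp W X (tp W X y) = y := by
  obtain ⟨z, hz, rfl⟩ := cyc_of_rop hy
  rw [tp_corr, tp_corr, map_swap_swap]

lemma trace_tp {y : Module.End W.K (W.H X)} (hy : ROp W X 0 y) :
    LinearMap.trace W.K _ (tp W X y) = LinearMap.trace W.K _ y :=
  trace_adj (bil W X) (fun _ hb => nondeg_right hb) (fun a b => tp_adj hy a b)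

lemma L_self (D : X.Cycles) (hD : X.IsCyc 1 D) (a b : W.H X) :
    W.tr X (LinearMap.mulLeft W.K (W.cl X D) a * b) =
      W.tr X (a * LinearMap.mulLeft W.K (W.cl X D) b) := by
  rw [LinearMap.mulLeft_apply, LinearMap.mulLeft_apply, W.even_comm (p := 1) (W.cl_mem hD) a,
    mul_assoc]

/-- The algebraic operators of degree zero which commute with the Lefschetz operator. -/
noncomputable def opRing (W : WeilCohomology.{u, v} ops) (X : 𝒱.Obj) (D : X.Cycles) :
    Subring (Module.End W.K (W.H X)) where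
  carrier := {y | ROp W X 0 y ∧ y * LinearMap.mulLeft W.K (W.cl X D) =
    LinearMap.mulLeft W.K (W.cl X D) * y}
  mul_mem' := by
    rintro x y ⟨hx, hx'⟩ ⟨hy, hy'⟩
    exact ⟨rop_mul0 hx hy, by rw [mul_assoc, hy', ← mul_assoc, hx', mul_assoc]⟩
  one_mem' := ⟨rop_opAlg.one, by rw [one_mul, mul_one]⟩
  add_mem' := by
    rintro x y ⟨hx, hx'⟩ ⟨hy, hy'⟩
    exact ⟨rop_opAlg.add hx hy, by rw [add_mul, mul_add, hx', hy']⟩
  zero_mem' := ⟨rop_opAlg.zero 0, by rw [zero_mul, mul_zero]⟩
  neg_mem' := by
    rintro x ⟨hx, hx'⟩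
    exact ⟨rop_opAlg.neg hx, (neg_mul x (LinearMap.mulLeft W.K (W.cl X D))).trans
      ((congrArg Neg.neg hx').trans (mul_neg (LinearMap.mulLeft W.K (W.cl X D)) x).symm)⟩

lemma mem_opRing {D : X.Cycles} {y : Module.End W.K (W.H X)} :
    y ∈ opRing W X D ↔ ROp W X 0 y ∧ y * LinearMap.mulLeft W.K (W.cl X D) =
      LinearMap.mulLeft W.K (W.cl X D) * y := Iff.rfl

/-- The rational scalars. -/
noncomputable def scHom (W : WeilCohomology.{u, v} ops) (X : 𝒱.Obj) (D : X.Cycles) :
    ℚ →+* opRing W X D :=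
  ((algebraMap W.K (Module.End W.K (W.H X))).comp (Rat.castHom W.K)).codRestrict (opRing W X D)
    (fun q => by
      refine ⟨?_, ?_⟩
      · have := rop_opAlg.smul q (rop_opAlg (W := W) (X := X)).one
        rw [← Algebra.algebraMap_eq_smul_one] at this
        exact this
      · exact Algebra.commutes (R := W.K) (A := Module.End W.K (W.H X)) (q : W.K)
          (LinearMap.mulLeft W.K (W.cl X D)))

noncomputable instance opAlgebra (W : WeilCohomology.{u, v} ops) (X : 𝒱.Obj) (D : X.Cycles) :
    Algebra ℚ (opRing W X D) :=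
  (scHom W X D).toAlgebra' (fun q x => Subtype.ext (by
    change (algebraMap W.K (Module.End W.K (W.H X)) (q : W.K)) * (x : Module.End W.K (W.H X)) =
      (x : Module.End W.K (W.H X)) * (algebraMap W.K (Module.End W.K (W.H X)) (q : W.K))
    exact Algebra.commutes (R := W.K) (A := Module.End W.K (W.H X)) (q : W.K) _))

lemma tp_mem {D : X.Cycles} (hD : X.IsCyc 1 D) {y : Module.End W.K (W.H X)}
    (hy : y ∈ opRing W X D) : tp W X y ∈ opRing W X D := by
  obtain ⟨h1, h2⟩ := mem_opRing.1 hy
  refine ⟨rop_tp h1, ?_⟩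
  apply LinearMap.ext
  intro b
  rw [← sub_eq_zero]
  apply nondeg_right
  intro a
  have h3 : ∀ a, y (LinearMap.mulLeft W.K (W.cl X D) a) =
      LinearMap.mulLeft W.K (W.cl X D) (y a) := fun a => congrArg (fun F => F a) h2
  rw [mul_sub, map_sub, Module.End.mul_apply, Module.End.mul_apply, ← tp_adj h1, ← L_self D hD,
    ← L_self D hD, ← tp_adj h1, h3, sub_self]

/-- The involution. -/
noncomputable def stMap (W : WeilCohomology.{u, v} ops) (X : 𝒱.Obj) {D : X.Cycles}
    (hD : X.IsCyc 1 D) : opRing W X D →ₗ[ℚ] opRing W X D :=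
  AddMonoidHom.toRatLinearMap
    { toFun := fun y => ⟨tp W X (y : Module.End W.K (W.H X)), tp_mem hD y.2⟩
      map_zero' := Subtype.ext (map_zero (tp W X))
      map_add' := fun x y => Subtype.ext (map_add (tp W X) (x : Module.End W.K (W.H X))
        (y : Module.End W.K (W.H X))) }

lemma stMap_coe {D : X.Cycles} (hD : X.IsCyc 1 D) (y : opRing W X D) :
    ((stMap W X hD y : opRing W X D) : Module.End W.K (W.H X)) =
      tp W X (y : Module.End W.K (W.H X)) := rfl

lemma exists_trace (hK : KunnethStd W X) {y : Module.End W.K (W.H X)} (hy : ROp W X 0 y) :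
    ∃ q : ℚ, LinearMap.trace W.K (W.H X) y = q := by
  have hpar : ROp W X 0 (par (W.isInternal X)) := by
    have := rop_scal hK (fun i => (-1 : ℚ) ^ i)
    have e : par (W.isInternal X) =
        scal (W.isInternal X) (fun i => (((-1 : ℚ) ^ i : ℚ) : W.K)) := by
      rw [par]; congr 1; funext i; push_cast; rfl
    rw [e]; exact this
  obtain ⟨q, hq⟩ := rop_str _ (rop_mul0 hpar hy)
  exact ⟨q, by rw [← hq, ← mul_assoc, par_mul_par, one_mul]⟩

/-- The rational trace. -/
noncomputable def trFun (hK : KunnethStd W X) (D : X.Cycles) (y : opRing W X D) : ℚ :=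
  (exists_trace hK (mem_opRing.1 y.2).1).choose

lemma trFun_spec (hK : KunnethStd W X) (D : X.Cycles) (y : opRing W X D) :
    ((trFun hK D y : ℚ) : W.K) = LinearMap.trace W.K (W.H X) ((opRing W X D).subtype y) :=
  (exists_trace hK (mem_opRing.1 y.2).1).choose_spec.symm

/-- The rational trace. -/
noncomputable def trMap (hK : KunnethStd W X) (D : X.Cycles) : opRing W X D →ₗ[ℚ] ℚ :=
  AddMonoidHom.toRatLinearMap
    { toFun := trFun hK D
      map_zero' := by
        have h := trFun_spec hK D 0
        rw [map_zero, map_zero] at h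
        exact_mod_cast h
      map_add' := fun x y => by
        have h := trFun_spec hK D (x + y)
        rw [map_add, map_add, ← trFun_spec, ← trFun_spec] at h
        exact_mod_cast h }

lemma trMap_spec (hK : KunnethStd W X) (D : X.Cycles) (y : opRing W X D) :
    ((trMap hK D y : ℚ) : W.K) = LinearMap.trace W.K (W.H X) ((opRing W X D).subtype y) :=
  trFun_spec hK D y

end Pool.Agent.W539.Sig
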