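import Pool.Agent.W539.Sig.Geo

/-!
# The Hodge type form on the primitive algebraic classes of middle codimension of `X × X`
-/

open CategoryTheory AlgebraicGeometry Finset

universe u v

namespace Pool.Agent.W539.Sig

open Pool.Agent.H914 Pool.Agent.H914.VarClass Pool.Agent.H914.VarClass.Obj
  Pool.Agent.H914.WeilCohomology

variable {k : Type u} [Field k] {𝒱 : VarClass k} {ops : CycleOps 𝒱}
  {W : WeilCohomology.{u, v} ops} {X : 𝒱.Obj}

/-- The sign operator. -/
noncomputable def sgn (W : WeilCohomology.{u, v} ops) (X : 𝒱.Obj) : Module.End W.K (W.H X) :=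
  scal (W.isInternal X) (fun j => (((-1 : ℚ) ^ (j / 2) : ℚ) : W.K))

lemma rop_sgn (hK : KunnethStd W X) : ROp W X 0 (sgn W X) := rop_scal hK _

lemma sgn_apply {j : ℕ} {a : W.H X} (ha : a ∈ W.gr X j) :
    sgn W X a = ((-1 : W.K) ^ (j / 2)) • a := by
  rw [sgn, scal_apply _ _ ha]
  push_cast
  rfl

lemma sgn_sq : sgn W X * sgn W X = 1 := by
  apply gr_ext (W.isInternal X)
  intro j a ha
  rw [Module.End.mul_apply, sgn_apply ha, map_smul, sgn_apply ha, smul_smul, ← pow_add,
    ← two_mul, pow_mul]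
  simp

lemma L_gr {D : X.Cycles} (hD : X.IsCyc 1 D) {j : ℕ} {a : W.H X} (ha : a ∈ W.gr X j) :
    LinearMap.mulLeft W.K (W.cl X D) a ∈ W.gr X (j + 2) := by
  have := W.mul_mem (W.cl_mem hD) ha
  rw [LinearMap.mulLeft_apply]
  rwa [show 2 * 1 + j = j + 2 by ring] at this

lemma sgn_L {D : X.Cycles} (hD : X.IsCyc 1 D) :
    sgn W X * LinearMap.mulLeft W.K (W.cl X D) =
      -(LinearMap.mulLeft W.K (W.cl X D) * sgn W X) := by
  apply gr_ext (W.isInternal X)
  intro j a ha
  rw [Module.End.mul_apply, LinearMap.neg_apply, Module.End.mul_apply, sgn_apply ha,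
    sgn_apply (L_gr hD ha), map_smul, ← neg_smul, show (j + 2) / 2 = j / 2 + 1 by omega, pow_succ]
  congr 1
  ring

lemma tp_sgn (hK : KunnethStd W X) :
    tp W X (sgn W X) = ((-1 : W.K) ^ X.dim) • (par (W.isInternal X) * sgn W X) := by
  apply tp_unique (rop_sgn hK)
  intro a b
  refine gr_induction (W.isInternal X) (p := fun a => W.tr X (sgn W X a * b) =
    W.tr X (a * (((-1 : W.K) ^ X.dim) • (par (W.isInternal X) * sgn W X)) b)) ?_ ?_ a
  swap
  · intro a a' ha ha'
    rw [map_add, add_mul, add_mul, map_add, map_add, ha, ha']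
  intro i a ha
  refine gr_induction (W.isInternal X) (p := fun b => W.tr X (sgn W X a * b) =
    W.tr X (a * (((-1 : W.K) ^ X.dim) • (par (W.isInternal X) * sgn W X)) b)) ?_ ?_ b
  swap
  · intro b b' hb hb'
    rw [map_add, mul_add, mul_add, map_add, map_add, hb, hb']
  intro j b hb
  rw [sgn_apply ha, LinearMap.smul_apply, Module.End.mul_apply, sgn_apply hb, map_smul, par,
    scal_apply _ _ hb, smul_smul, smul_smul, smul_mul_assoc, mul_smul_comm, map_smul, map_smul]
  by_cases hij : i + j = 2 * X.dim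
  · congr 1
    rcases Nat.even_or_odd j with h | h
    · have h1 : X.dim = i / 2 + j / 2 := by
        obtain ⟨m, hm⟩ := h; omega
      rw [h.neg_one_pow, mul_one, h1, pow_add, mul_assoc, ← pow_add, ← two_mul, pow_mul]
      simp
    · have h1 : X.dim = i / 2 + j / 2 + 1 := by
        obtain ⟨m, hm⟩ := h; omega
      rw [h.neg_one_pow, h1, pow_succ, pow_add]
      have h2 : (-1 : W.K) ^ (j / 2) * (-1 : W.K) ^ (j / 2) = 1 := by
        rw [← pow_add, ← two_mul, pow_mul]; simp
      linear_combination (-(-1 : W.K) ^ (i / 2)) * h2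
  · rw [W.tr_eq_zero (W.mul_mem ha hb) hij, smul_zero, smul_zero]

/-- The intersection number as a trace. -/
lemma form_eq (hK : KunnethStd W X) {z z' : (X.prod X).Cycles} (hz : (X.prod X).IsCyc X.dim z)
    (hz' : (X.prod X).IsCyc X.dim z') :
    (((-1) ^ X.dim * (X.prod X).V.degCycle (ops.mul z z') : ℚ) : W.K) =
      LinearMap.trace W.K (W.H X) ((sgn W X * W.corr (W.cl _ z)) *
        tp W X (sgn W X * W.corr (W.cl _ z'))) := by
  have hzz : (X.prod X).IsCyc (X.prod X).dim (ops.mul z z') := by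
    have := ops.mul_mem hz hz'
    rwa [dim_prod]
  rw [tp_mul (rop_sgn hK) (rop_of_cyc hz'), tp_sgn hK, tp_corr, Rat.cast_mul, ← W.tr_cl hzz,
    W.cl_mul, tr_mul_eq_trace (W.cl_mem hz)]
  set P := par (W.isInternal X)
  set E := sgn W X with hE
  set Z := W.corr (W.cl _ z)
  set Z' := W.corr (W.map (swap X X) (W.cl _ z'))
  rw [mul_smul_comm, mul_smul_comm, map_smul, smul_eq_mul, Rat.cast_pow, Rat.cast_neg,
    Rat.cast_one]
  congr 1
  have e1 : (Z' * (P * E)) * (E * Z) = Z' * (P * Z) := by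
    rw [mul_assoc, mul_assoc P, ← mul_assoc E E, hE, sgn_sq, one_mul]
  rw [LinearMap.trace_mul_comm _ (E * Z), e1, LinearMap.trace_mul_comm]

lemma ring_comm {R : Type*} [Ring R] {E L Z : R} (h : E * L = -(L * E))
    (h2 : L * Z = -(Z * L)) : (E * Z) * L = L * (E * Z) := by
  have h3 : Z * L = -(L * Z) := by rw [h2, neg_neg]
  rw [mul_assoc, h3, mul_neg, ← mul_assoc, h, neg_mul, neg_neg, mul_assoc]

lemma ring_anti {R : Type*} [Ring R] {E L Y : R} (h : E * L = -(L * E))
    (h2 : Y * L = L * Y) : L * (E * Y) = -((E * Y) * L) := by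
  rw [mul_assoc, h2, ← mul_assoc, ← mul_assoc, h, neg_mul, neg_neg]

/-- **The Hodge type form on primitive classes of middle codimension is at least half
positive.** -/
theorem half_positive {D : X.Cycles} (hD : X.IsCyc 1 D) (hK : KunnethStd W X) {r : ℕ}
    (z : Fin r → (X.prod X).Cycles) (hz : ∀ i, (X.prod X).IsCyc X.dim (z i))
    (hp : ∀ i, W.cl (X.prod X) (ops.mul (boxSum ops D) (z i)) = 0)
    (hneg : ∀ i, (-1 : ℚ) ^ X.dim * (X.prod X).V.degCycle (ops.mul (z i) (z i)) < 0)
    (horth : ∀ i j, i ≠ j → (X.prod X).V.degCycle (ops.mul (z i) (z j)) = 0) :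
    ∃ w : Fin r → (X.prod X).Cycles, (∀ i, (X.prod X).IsCyc X.dim (w i) ∧
      W.cl (X.prod X) (ops.mul (boxSum ops D) (w i)) = 0 ∧
      0 < (-1 : ℚ) ^ X.dim * (X.prod X).V.degCycle (ops.mul (w i) (w i))) ∧
      ∀ i j, i ≠ j → (X.prod X).V.degCycle (ops.mul (w i) (w j)) = 0 := by
  classical
  set L : Module.End W.K (W.H X) := LinearMap.mulLeft W.K (W.cl X D) with hL
  set E : Module.End W.K (W.H X) := sgn W X with hE
  have hEL : E * L = -(L * E) := sgn_L hD
  have hEE : E * E = 1 := sgn_sq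
  have hprim : ∀ z : (X.prod X).Cycles, W.cl _ (ops.mul (boxSum ops D) z) = 0 ↔
      L * W.corr (W.cl _ z) = -(W.corr (W.cl _ z) * L) := by
    intro z
    have h1 := corr_boxSum (W := W) hD (W.cl _ z)
    rw [← W.cl_mul, dbl_apply] at h1
    constructor
    · intro h
      rw [h, corr_zero] at h1
      exact eq_neg_of_add_eq_zero_left h1.symm
    · intro h
      apply corr_inj
      rw [h1, ← hL, h]
      exact neg_add_cancel _
  -- the ring elements attached to the cycles
  have hmem : ∀ i, E * W.corr (W.cl _ (z i)) ∈ opRing W X D := fun i =>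
    ⟨rop_mul0 (rop_sgn hK) (rop_of_cyc (hz i)), ring_comm hEL ((hprim (z i)).1 (hp i))⟩
  let y : Fin r → opRing W X D := fun i => ⟨E * W.corr (W.cl _ (z i)), hmem i⟩
  have hform : ∀ {z z' : (X.prod X).Cycles} (hz : (X.prod X).IsCyc X.dim z)
      (hz' : (X.prod X).IsCyc X.dim z') (x x' : opRing W X D),
      (x : Module.End W.K (W.H X)) = E * W.corr (W.cl _ z) →
      (x' : Module.End W.K (W.H X)) = E * W.corr (W.cl _ z') →
      trMap hK D (x * stMap W X hD x') =
        (-1) ^ X.dim * (X.prod X).V.degCycle (ops.mul z z') := by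
    intro z z' hz hz' x x' hx hx'
    have h1 := trMap_spec hK D (x * stMap W X hD x')
    have h2 := form_eq hK hz hz'
    have h3 : (opRing W X D).subtype (x * stMap W X hD x') =
        (sgn W X * W.corr (W.cl _ z)) * tp W X (sgn W X * W.corr (W.cl _ z')) := by
      rw [map_mul]
      change (x : Module.End W.K (W.H X)) * tp W X (x' : Module.End W.K (W.H X)) = _
      rw [hx, hx']
    rw [h3, ← h2] at h1
    exact_mod_cast h1
  obtain ⟨w, hw, hw0⟩ := signature (trMap_spec hK D) (st := stMap W X hD)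
    (fun x x' => Subtype.ext (tp_mul (mem_opRing.1 x.2).1 (mem_opRing.1 x'.2).1))
    (fun x => Subtype.ext (tp_tp (mem_opRing.1 x.2).1))
    (fun x => by
      have h1 := trMap_spec hK D (stMap W X hD x)
      have h2 := trMap_spec hK D x
      have h3 := trace_tp (mem_opRing.1 x.2).1
      have h4 : ((trMap hK D (stMap W X hD x) : ℚ) : W.K) = ((trMap hK D x : ℚ) : W.K) := by
        rw [h1, h2]; exact h3
      exact_mod_cast h4) y
    (fun i => by rw [hform (hz i) (hz i) (y i) (y i) rfl rfl]; exact hneg i)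
    (fun i j hij => by rw [hform (hz i) (hz j) (y i) (y j) rfl rfl, horth i j hij, mul_zero])
  -- back to cycles
  have hcyc : ∀ i, ∃ z, (X.prod X).IsCyc X.dim z ∧
      W.corr (W.cl _ z) = E * (w i : Module.End W.K (W.H X)) := fun i =>
    cyc_of_rop (rop_mul0 (rop_sgn hK) (mem_opRing.1 (w i).2).1)
  choose c hc hcw using hcyc
  have hwc : ∀ i, (w i : Module.End W.K (W.H X)) = E * W.corr (W.cl _ (c i)) := by
    intro i
    rw [hcw i, ← mul_assoc, hEE, one_mul]
  refine ⟨c, fun i => ⟨hc i, ?_, ?_⟩, fun i j hij => ?_⟩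
  · rw [hprim, hcw i]
    exact ring_anti hEL (mem_opRing.1 (w i).2).2
  · rw [← hform (hc i) (hc i) (w i) (w i) (hwc i) (hwc i)]
    exact hw i
  · have h1 := hw0 i j hij
    rw [hform (hc i) (hc j) (w i) (w j) (hwc i) (hwc j)] at h1
    rcases mul_eq_zero.1 h1 with h | h
    · exact absurd h (pow_ne_zero _ (by norm_num))
    · exact h

end Pool.Agent.W539.Sig
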