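import Mathlib

/-!
# Conjugate-linear involutions of a matrix algebra
-/

open Matrix Finset
open scoped ComplexConjugate

namespace Pool.Agent.W539.Sig

variable {d : ℕ}

/-- A matrix commuting with all matrices is a scalar. -/
lemma exists_scalar {c : Matrix (Fin d) (Fin d) ℂ} (h : ∀ x, x * c = c * x) :
    ∃ l : ℂ, c = l • 1 := by
  have : c ∈ Set.range (Matrix.scalar (Fin d)) :=
    Matrix.mem_range_scalar_of_commute_single fun i j _ => h _
  obtain ⟨l, rfl⟩ := this
  exact ⟨l, by ext i j; simp [Matrix.scalar_apply, Matrix.smul_apply, Matrix.one_apply,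
    Matrix.diagonal_apply]⟩

/-- Automorphisms of a matrix algebra are inner. -/
lemma exists_inner (σ : Matrix (Fin d) (Fin d) ℂ ≃ₐ[ℂ] Matrix (Fin d) (Fin d) ℂ) :
    ∃ g gi : Matrix (Fin d) (Fin d) ℂ, g * gi = 1 ∧ ∀ x, σ x = g * x * gi := by
  obtain ⟨t, ht⟩ := AlgEquiv.eq_linearEquivConjAlgEquiv
    ((Matrix.toLinAlgEquiv' (R := ℂ) (n := Fin d)).symm.trans
      (σ.trans (Matrix.toLinAlgEquiv' (R := ℂ) (n := Fin d))))
  refine ⟨LinearMap.toMatrix' t.toLinearMap, LinearMap.toMatrix' t.symm.toLinearMap, ?_, ?_⟩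
  · rw [← LinearMap.toMatrix'_comp]
    have : t.toLinearMap ∘ₗ t.symm.toLinearMap = LinearMap.id := by ext; simp
    rw [this, LinearMap.toMatrix'_id]
  · intro x
    have h1 := congrArg (fun f => f (Matrix.toLinAlgEquiv' x)) ht
    simp only [AlgEquiv.trans_apply, AlgEquiv.symm_apply_apply] at h1
    have h2 : Matrix.toLin' (σ x) = t.toLinearMap ∘ₗ Matrix.toLin' x ∘ₗ t.symm.toLinearMap := h1
    have h3 := congrArg LinearMap.toMatrix' h2
    rw [LinearMap.toMatrix'_toLin', LinearMap.toMatrix'_comp, LinearMap.toMatrix'_comp,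
      LinearMap.toMatrix'_toLin'] at h3
    rw [h3, mul_assoc]

/-- The structure of the conjugate-linear involutions of a matrix algebra: they are the adjunctions
with respect to the hermitian forms, and the hermitian form is diagonal in a unitary basis. -/
theorem block_form (st : Matrix (Fin d) (Fin d) ℂ → Matrix (Fin d) (Fin d) ℂ)
    (hadd : ∀ x y, st (x + y) = st x + st y) (hsmul : ∀ (c : ℂ) x, st (c • x) = conj c • st x)
    (hmul : ∀ x y, st (x * y) = st y * st x) (hinv : ∀ x, st (st x) = x) :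
    ∃ (Q : Matrix (Fin d) (Fin d) ℂ) (L : Fin d → ℝ), Qᴴ * Q = 1 ∧ Q * Qᴴ = 1 ∧
      (∀ k, L k ≠ 0) ∧ ∀ x, (x * st x).trace =
        ((∑ k, ∑ l, Complex.normSq ((Qᴴ * x * Q) k l) * (L l / L k) : ℝ) : ℂ) := by
  classical
  have h1 : st 1 = 1 := by
    have h2 : ∀ y, st 1 * y = y := by
      intro y
      have h3 := hmul (st y) 1
      rw [mul_one, hinv] at h3
      exact h3.symm
    rw [← mul_one (st 1), h2]
  let σ : Matrix (Fin d) (Fin d) ℂ ≃ₐ[ℂ] Matrix (Fin d) (Fin d) ℂ :=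
    { toFun := fun x => (st x)ᴴ
      invFun := fun y => st yᴴ
      left_inv := fun x => by simp only [conjTranspose_conjTranspose, hinv]
      right_inv := fun x => by simp only [conjTranspose_conjTranspose, hinv]
      map_mul' := fun x y => by simp only [hmul, conjTranspose_mul]
      map_add' := fun x y => by simp only [hadd, conjTranspose_add]
      commutes' := fun c => by
        simp only [Algebra.algebraMap_eq_smul_one, hsmul, h1, conjTranspose_smul,
          conjTranspose_one]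
        simp }
  obtain ⟨g, gi, hg, hσ⟩ := exists_inner σ
  have hst0 : ∀ x, st x = giᴴ * xᴴ * gᴴ := by
    intro x
    have h2 : (st x)ᴴ = g * x * gi := hσ x
    rw [← conjTranspose_conjTranspose (st x), h2, conjTranspose_mul, conjTranspose_mul, mul_assoc]
  obtain ⟨u, hu⟩ : ∃ u, u = giᴴ := ⟨_, rfl⟩
  obtain ⟨ui, hui⟩ : ∃ ui, ui = gᴴ := ⟨_, rfl⟩
  rw [← hu, ← hui] at hst0
  have huu : u * ui = 1 := by rw [hu, hui, ← conjTranspose_mul, hg, conjTranspose_one]
  have huu' : ui * u = 1 := mul_eq_one_comm.1 huu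
  -- the involution
  have hcen : ∀ x, x * (u * uiᴴ) = (u * uiᴴ) * x := by
    intro x
    have h2 : x = u * uiᴴ * x * (uᴴ * ui) := by
      conv_lhs => rw [← hinv x, hst0 (st x), hst0 x, conjTranspose_mul, conjTranspose_mul,
        conjTranspose_conjTranspose]
      simp only [mul_assoc]
    have h3 : (uᴴ * ui) * (u * uiᴴ) = 1 := by
      have : uᴴ * uiᴴ = 1 := by rw [← conjTranspose_mul, huu', conjTranspose_one]
      calc uᴴ * ui * (u * uiᴴ) = uᴴ * (ui * u) * uiᴴ := by simp only [mul_assoc]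
        _ = 1 := by rw [huu', mul_one, this]
    calc x * (u * uiᴴ) = u * uiᴴ * x * (uᴴ * ui) * (u * uiᴴ) := by rw [← h2]
      _ = u * uiᴴ * x * ((uᴴ * ui) * (u * uiᴴ)) := by rw [mul_assoc]
      _ = u * uiᴴ * x := by rw [h3, mul_one]
  obtain ⟨l, hl⟩ := exists_scalar hcen
  have hul : u = l • uᴴ := by
    have : uiᴴ * uᴴ = 1 := by rw [← conjTranspose_mul, huu, conjTranspose_one]
    calc u = u * (uiᴴ * uᴴ) := by rw [this, mul_one]
      _ = (u * uiᴴ) * uᴴ := by rw [mul_assoc]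
      _ = l • uᴴ := by rw [hl, smul_mul_assoc, one_mul]
  have huH : uᴴ = conj l • u := by
    conv_lhs => rw [hul, conjTranspose_smul, conjTranspose_conjTranspose]
    rfl
  obtain ⟨m, hm, hherm⟩ : ∃ m : ℂ, m ≠ 0 ∧ (m • u).IsHermitian := by
    by_cases h : 1 + conj l = 0
    · refine ⟨Complex.I, Complex.I_ne_zero, ?_⟩
      have h2 : conj l = -1 := by linear_combination h
      rw [Matrix.IsHermitian, conjTranspose_smul, huH, h2, smul_smul]
      congr 1
      simp
    · refine ⟨1 + conj l, h, ?_⟩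
      have h2 : (1 + conj l) • u = u + uᴴ := by rw [huH, add_smul, one_smul]
      rw [Matrix.IsHermitian, h2, conjTranspose_add, conjTranspose_conjTranspose, add_comm]
  set v := m • u with hv
  set vi := m⁻¹ • ui with hvi
  have hvv : v * vi = 1 := by
    rw [hv, hvi, smul_mul_smul_comm, huu, mul_inv_cancel₀ hm, one_smul]
  have hst : ∀ x, st x = v * xᴴ * vi := by
    intro x
    rw [hst0, hv, hvi, smul_mul_assoc, smul_mul_smul_comm, mul_inv_cancel₀ hm, one_smul]
  obtain ⟨Q, hQ⟩ : ∃ Q : Matrix (Fin d) (Fin d) ℂ, Q = hherm.eigenvectorUnitary.1 := ⟨_, rfl⟩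
  obtain ⟨L, hL⟩ : ∃ L : Fin d → ℝ, L = hherm.eigenvalues := ⟨_, rfl⟩
  have hQ1 : Qᴴ * Q = 1 := by
    rw [hQ]
    exact Unitary.star_mul_self_of_mem hherm.eigenvectorUnitary.2
  have hQ2 : Q * Qᴴ = 1 := by
    rw [hQ]
    exact Unitary.mul_star_self_of_mem hherm.eigenvectorUnitary.2
  have hspec : v = Q * diagonal (fun k => (L k : ℂ)) * Qᴴ := by
    have := hherm.spectral_theorem
    rw [hQ, hL]
    exact this
  have hdiag : diagonal (fun k => (L k : ℂ)) * (Qᴴ * vi * Q) = 1 := by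
    have h2 : diagonal (fun k => (L k : ℂ)) = Qᴴ * v * Q := by
      rw [hspec]
      calc diagonal (fun k => (L k : ℂ)) = (Qᴴ * Q) * diagonal (fun k => (L k : ℂ)) * (Qᴴ * Q) := by
            rw [hQ1, one_mul, mul_one]
        _ = _ := by simp only [mul_assoc]
    rw [h2]
    calc Qᴴ * v * Q * (Qᴴ * vi * Q) = Qᴴ * (v * (Q * Qᴴ) * vi) * Q := by simp only [mul_assoc]
      _ = 1 := by rw [hQ2, mul_one, hvv, mul_one, hQ1]
  have hent : ∀ k j, (L k : ℂ) * (Qᴴ * vi * Q) k j = if k = j then 1 else 0 := by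
    intro k j
    have := congrFun (congrFun hdiag k) j
    rw [diagonal_mul] at this
    rw [this, one_apply]
  have hL0 : ∀ k, L k ≠ 0 := by
    intro k h0
    have := hent k k
    rw [h0, if_pos rfl] at this
    simp at this
  have hvi2 : Qᴴ * vi * Q = diagonal (fun k => ((L k : ℂ))⁻¹) := by
    ext k j
    have h2 : (L k : ℂ) ≠ 0 := by exact_mod_cast hL0 k
    have h3 := hent k j
    rw [diagonal_apply]
    by_cases hkj : k = j
    · rw [if_pos hkj] at h3 ⊢
      field_simp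
      rw [mul_comm]
      exact h3
    · rw [if_neg hkj] at h3 ⊢
      exact (mul_eq_zero.1 h3).resolve_left h2
  refine ⟨Q, L, hQ1, hQ2, hL0, ?_⟩
  intro x
  set M := Qᴴ * x * Q with hM
  have hx : x = Q * M * Qᴴ := by
    rw [hM]
    calc x = (Q * Qᴴ) * x * (Q * Qᴴ) := by rw [hQ2, one_mul, mul_one]
      _ = _ := by simp only [mul_assoc]
  have hxH : xᴴ = Q * Mᴴ * Qᴴ := by
    rw [hx, conjTranspose_mul, conjTranspose_mul, conjTranspose_conjTranspose]
    simp only [mul_assoc]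
  have hvi3 : vi = Q * diagonal (fun k => ((L k : ℂ))⁻¹) * Qᴴ := by
    rw [← hvi2]
    calc vi = (Q * Qᴴ) * vi * (Q * Qᴴ) := by rw [hQ2, one_mul, mul_one]
      _ = _ := by simp only [mul_assoc]
  have h4 : x * st x = Q * (M * diagonal (fun k => (L k : ℂ)) * Mᴴ *
      diagonal (fun k => ((L k : ℂ))⁻¹)) * Qᴴ := by
    rw [hst, hxH, hspec, hvi3, hx]
    calc Q * M * Qᴴ * (Q * diagonal (fun k => (L k : ℂ)) * Qᴴ * (Q * Mᴴ * Qᴴ) *
          (Q * diagonal (fun k => ((L k : ℂ))⁻¹) * Qᴴ))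
        = Q * M * (Qᴴ * Q) * diagonal (fun k => (L k : ℂ)) * (Qᴴ * Q) * Mᴴ * (Qᴴ * Q) *
          diagonal (fun k => ((L k : ℂ))⁻¹) * Qᴴ := by simp only [mul_assoc]
      _ = _ := by rw [hQ1]; simp only [mul_one, mul_assoc]
  rw [h4, trace_mul_comm, ← mul_assoc, hQ1, one_mul, trace]
  push_cast
  apply Finset.sum_congr rfl
  intro k _
  rw [diag_apply, mul_diagonal, mul_apply, Finset.sum_mul]
  apply Finset.sum_congr rfl
  intro j _
  rw [mul_diagonal, conjTranspose_apply, Complex.normSq_eq_conj_mul_self]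
  simp only [RCLike.star_def]
  field_simp

end Pool.Agent.W539.Sig
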