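import Pool.Agent.W539.Sig.Mat

/-!
# Conjugate-linear involutions of a product of matrix algebras
-/

open Matrix Finset
open scoped ComplexConjugate

namespace Pool.Agent.W539.Sig

/-- The number of pairs of different sign is at most the number of pairs of equal sign. -/
lemma card_signs {ι : Type*} [Fintype ι] [DecidableEq ι] (s : ι → Prop) [DecidablePred s] :
    ((univ : Finset (ι × ι)).filter (fun b => ¬(s b.1 ↔ s b.2))).card ≤
      ((univ : Finset (ι × ι)).filter (fun b => (s b.1 ↔ s b.2))).card := by
  let f : ι → ℤ := fun k => if s k then 1 else -1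
  have h1 : 0 ≤ ∑ b : ι × ι, f b.1 * f b.2 := by
    rw [Fintype.sum_prod_type]
    have : ∑ x, ∑ y, f x * f y = (∑ x, f x) * (∑ x, f x) := by
      rw [Finset.sum_mul_sum]
    rw [this]
    exact mul_self_nonneg _
  have h2 : ∀ b : ι × ι, f b.1 * f b.2 = (if (s b.1 ↔ s b.2) then 1 else 0) -
      (if ¬(s b.1 ↔ s b.2) then 1 else 0) := by
    intro b
    by_cases h : s b.1 <;> by_cases h' : s b.2 <;> simp [f, h, h']
  rw [Finset.sum_congr rfl (fun b _ => h2 b), Finset.sum_sub_distrib, Finset.sum_boole,
    Finset.sum_boole] at h1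
  have : (((univ : Finset (ι × ι)).filter (fun b => ¬(s b.1 ↔ s b.2))).card : ℤ) ≤
      ((univ : Finset (ι × ι)).filter (fun b => (s b.1 ↔ s b.2))).card := by
    linarith
  exact_mod_cast this

/-- A trace functional on a matrix algebra is a multiple of the trace. -/
lemma trace_functional {d : ℕ} (hd : d ≠ 0) (t : Matrix (Fin d) (Fin d) ℂ →ₗ[ℂ] ℂ)
    (ht : ∀ x y, t (x * y) = t (y * x)) (hn : ∀ e, e * e = e → ∃ m : ℕ, t e = m) :
    ∃ m : ℕ, ∀ x, t x = m * x.trace := by
  set k0 : Fin d := ⟨0, Nat.pos_of_ne_zero hd⟩
  obtain ⟨m, hm⟩ := hn (single k0 k0 1) (by simp)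
  refine ⟨m, fun x => ?_⟩
  have h1 : ∀ k l, t (single k l 1) = if k = l then (m : ℂ) else 0 := by
    intro k l
    split_ifs with h
    · subst h
      have e1 : (single k k (1 : ℂ)) = single k k0 1 * single k0 k 1 := by simp
      rw [e1, ht, single_mul_single_same, mul_one, hm]
    · have e1 : (single k l (1 : ℂ)) = single k k 1 * single k l 1 := by simp
      rw [e1, ht, single_mul_single_of_ne _ _ _ _ (Ne.symm h), map_zero]
  conv_lhs => rw [matrix_eq_sum_single x]
  rw [map_sum, trace, Finset.mul_sum]
  apply Finset.sum_congr rfl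
  intro k _
  rw [map_sum, Finset.sum_eq_single k]
  · have : single k k (x k k) = x k k • single k k (1 : ℂ) := by simp [smul_single]
    rw [this, map_smul, h1, if_pos rfl, smul_eq_mul, diag_apply, mul_comm]
  · intro l _ hl
    have : single k l (x k l) = x k l • single k l (1 : ℂ) := by simp [smul_single]
    rw [this, map_smul, h1, if_neg (Ne.symm hl), smul_zero]
  · intro h; exact absurd (Finset.mem_univ _) h

section

variable {n : ℕ} {d : Fin n → ℕ}

/-- The product of matrix algebras. -/
abbrev Pr (d : Fin n → ℕ) : Type := Π i, Matrix (Fin (d i)) (Fin (d i)) ℂ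

/-- The properties of a conjugate-linear involution. -/
structure IsStar {B : Type*} [Ring B] [Algebra ℂ B] (st : B → B) : Prop where
  add : ∀ x y, st (x + y) = st x + st y
  smul : ∀ (c : ℂ) x, st (c • x) = conj c • st x
  mul : ∀ x y, st (x * y) = st y * st x
  inv : ∀ x, st (st x) = x

namespace IsStar

variable {B : Type*} [Ring B] [Algebra ℂ B] {st : B → B} (h : IsStar st)
include h

lemma zero : st 0 = 0 := by
  have := h.smul 0 0
  rwa [zero_smul, map_zero, zero_smul] at this

lemma one : st 1 = 1 := by
  have h2 : ∀ y, st 1 * y = y := by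
    intro y
    have h3 := h.mul (st y) 1
    rw [mul_one, h.inv] at h3
    exact h3.symm
  rw [← mul_one (st 1), h2]

lemma inj {x y : B} (hxy : st x = st y) : x = y := by
  rw [← h.inv x, hxy, h.inv]

lemma sum {ι : Type*} (s : Finset ι) (f : ι → B) : st (∑ i ∈ s, f i) = ∑ i ∈ s, st (f i) := by
  classical
  induction s using Finset.induction_on with
  | empty => simp [h.zero]
  | insert a s ha ih => rw [Finset.sum_insert ha, Finset.sum_insert ha, h.add, ih]

end IsStar

lemma single_mul_single_pi (i : Fin n) (x y : Matrix (Fin (d i)) (Fin (d i)) ℂ) :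
    (Pi.single i x : Pr d) * Pi.single i y = Pi.single i (x * y) := by
  ext j : 1
  by_cases hj : j = i
  · subst hj; simp
  · simp [Pi.single_eq_of_ne hj]

lemma eps_mul (i : Fin n) (x : Pr d) : (Pi.single i 1 : Pr d) * x = Pi.single i (x i) := by
  ext j : 1
  by_cases hj : j = i
  · subst hj; simp
  · simp [Pi.single_eq_of_ne hj]

lemma mul_eps (i : Fin n) (x : Pr d) : x * (Pi.single i 1 : Pr d) = Pi.single i (x i) := by
  ext j : 1
  by_cases hj : j = i
  · subst hj; simp
  · simp [Pi.single_eq_of_ne hj]

variable (hd : ∀ i, d i ≠ 0) {st : Pr d → Pr d} (h : IsStar st)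

include hd h

/-- The involution permutes the factors. -/
lemma exists_perm : ∃ π : Fin n → Fin n, (∀ i, st (Pi.single i 1) = Pi.single (π i) 1) ∧
    ∀ i, π (π i) = i := by
  classical
  have hne : ∀ i, NeZero (d i) := fun i => ⟨hd i⟩
  have hcen : ∀ i x, st (Pi.single i 1) * x = x * st (Pi.single i 1) := by
    intro i x
    rw [← h.inv x, ← h.mul, ← h.mul, eps_mul, mul_eps]
  have hidem : ∀ i, st (Pi.single i 1) * st (Pi.single i 1) = st (Pi.single i 1) := by
    intro i
    rw [← h.mul, single_mul_single_pi, mul_one]
  have h01 : ∀ i j, st (Pi.single i 1) j = 0 ∨ st (Pi.single i 1) j = 1 := by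
    intro i j
    obtain ⟨l, hl⟩ := exists_scalar (c := st (Pi.single i 1) j) (by
      intro x
      have := congrFun (hcen i (Pi.single j x)) j
      simp only [Pi.mul_apply, Pi.single_eq_same] at this
      exact this.symm)
    have h2 := congrFun (hidem i) j
    rw [Pi.mul_apply, hl, smul_mul_smul_comm, mul_one] at h2
    have h3 := congrFun (congrFun h2 0) 0
    simp only [Matrix.smul_apply, one_apply_eq, smul_eq_mul, mul_one] at h3
    have h4 : l = 0 ∨ l = 1 := by
      have : l * (l - 1) = 0 := by linear_combination h3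
      rcases mul_eq_zero.1 this with h | h
      · exact Or.inl h
      · exact Or.inr (by linear_combination h)
    rcases h4 with rfl | rfl
    · left; rw [hl, zero_smul]
    · right; rw [hl, one_smul]
  have hex : ∀ i, ∃ j, st (Pi.single i 1) j = 1 := by
    intro i
    by_contra hcon
    push Not at hcon
    have h2 : st (Pi.single i 1) = 0 := by
      ext j : 1
      exact (h01 i j).resolve_right (hcon j)
    have h3 : (Pi.single i 1 : Pr d) = 0 := h.inj (by rw [h2, h.zero])
    have h4 := congrFun h3 i
    rw [Pi.single_eq_same] at h4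
    exact one_ne_zero h4
  choose π hπ using hex
  have horth : ∀ i i', i ≠ i' → st (Pi.single i 1) * st (Pi.single i' 1) = 0 := by
    intro i i' hi
    rw [← h.mul, eps_mul, Pi.single_eq_of_ne hi.symm, Pi.single_zero, h.zero]
  have hinj : Function.Injective π := by
    intro i i' hii
    by_contra hne'
    have h2 := congrFun (horth i i' hne') (π i)
    rw [Pi.mul_apply, hπ i, hii, hπ i', mul_one] at h2
    exact one_ne_zero h2
  have hsurj : Function.Surjective π := Finite.surjective_of_injective hinj
  have key : ∀ i, st (Pi.single i 1) = Pi.single (π i) 1 := by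
    intro i
    ext j : 1
    by_cases hj : j = π i
    · subst hj; rw [hπ, Pi.single_eq_same]
    · rw [Pi.single_eq_of_ne hj]
      obtain ⟨i', rfl⟩ := hsurj j
      have hii : i ≠ i' := fun h => hj (by rw [h])
      have h2 := congrFun (horth i i' hii) (π i')
      rw [Pi.mul_apply, hπ i', mul_one] at h2
      exact h2
  refine ⟨π, key, fun i => ?_⟩
  have h2 := h.inv (Pi.single i 1)
  rw [key, key] at h2
  by_contra hne'
  have h3 := congrFun h2 i
  rw [Pi.single_eq_same, Pi.single_eq_of_ne (Ne.symm hne')] at h3
  exact one_ne_zero h3.symm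

omit hd in
/-- A factor is mapped to a factor. -/
lemma st_apply {π : Fin n → Fin n} (hπ : ∀ i, st (Pi.single i 1) = Pi.single (π i) 1)
    (hππ : ∀ i, π (π i) = i) (x : Pr d) (i : Fin n) :
    Pi.single i (st x i) = st (Pi.single (π i) (x (π i))) := by
  rw [← mul_eps, ← eps_mul, h.mul, hπ, hππ]

omit hd in
lemma st_single {π : Fin n → Fin n} (hπ : ∀ i, st (Pi.single i 1) = Pi.single (π i) 1)
    (hππ : ∀ i, π (π i) = i) (i : Fin n) (x : Matrix (Fin (d i)) (Fin (d i)) ℂ) :
    st (Pi.single i x) = Pi.single (π i) (st (Pi.single i x) (π i)) := by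
  rw [st_apply h hπ hππ, hππ, Pi.single_eq_same]

omit hd in
lemma dim_le {π : Fin n → Fin n} (hπ : ∀ i, st (Pi.single i 1) = Pi.single (π i) 1)
    (hππ : ∀ i, π (π i) = i) (i : Fin n) : d i * d i ≤ d (π i) * d (π i) := by
  let f : Matrix (Fin (d i)) (Fin (d i)) ℂ →ₗ[ℂ] Matrix (Fin (d (π i))) (Fin (d (π i))) ℂ :=
    { toFun := fun x => (st (Pi.single i x) (π i))ᴴ
      map_add' := fun x y => by
        rw [Pi.single_add, h.add, Pi.add_apply, conjTranspose_add]
      map_smul' := fun c x => by
        rw [Pi.single_smul, h.smul, Pi.smul_apply, conjTranspose_smul]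
        simp }
  have hf : Function.Injective f := by
    rw [← LinearMap.ker_eq_bot, LinearMap.ker_eq_bot']
    intro x hx
    have h1 : st (Pi.single i x) (π i) = 0 := conjTranspose_eq_zero.1 hx
    have h2 := st_single h hπ hππ i x
    rw [h1, Pi.single_zero] at h2
    have h3 : (Pi.single i x : Pr d) = 0 := h.inj (by rw [h2, h.zero])
    have h4 := congrFun h3 i
    rwa [Pi.single_eq_same] at h4
  have := LinearMap.finrank_le_finrank_of_injective hf
  rwa [Module.finrank_matrix, Module.finrank_matrix, Module.finrank_self, Fintype.card_fin,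
    Fintype.card_fin, mul_one, mul_one] at this

/-- **Half of the coordinates suffice.** -/
theorem exists_good (T : Pr d →ₗ[ℂ] ℂ) (hTc : ∀ x y, T (x * y) = T (y * x))
    (hTn : ∀ e, e * e = e → ∃ m : ℕ, T e = m) :
    ∃ (κ : Type) (_ : Fintype κ) (F : Pr d →ₗ[ℂ] (κ → ℂ)),
      2 * Fintype.card κ ≤ ∑ i, d i * d i ∧ ∀ x, F x = 0 → 0 ≤ (T (x * st x)).re := by
  classical
  obtain ⟨π, hπ, hππ⟩ := exists_perm hd h
  have hdd : ∀ i, d (π i) * d (π i) = d i * d i := by
    intro i
    apply le_antisymm
    · have := dim_le h hπ hππ (π i)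
      rwa [hππ] at this
    · exact dim_le h hπ hππ i
  -- the trace functional
  have hT : ∀ i, ∃ m : ℕ, ∀ x : Matrix (Fin (d i)) (Fin (d i)) ℂ,
      T (Pi.single i x) = m * x.trace := by
    intro i
    exact trace_functional (hd i)
      (T ∘ₗ LinearMap.single ℂ (fun i => Matrix (Fin (d i)) (Fin (d i)) ℂ) i)
      (fun x y => by
        change T (Pi.single i (x * y)) = T (Pi.single i (y * x))
        rw [← single_mul_single_pi, hTc, single_mul_single_pi])
      (fun e he => by
        obtain ⟨m, hm⟩ := hTn (Pi.single i e) (by rw [single_mul_single_pi, he])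
        exact ⟨m, hm⟩)
  choose m hm using hT
  -- the forms on the factors
  have hQ : ∀ i, ∃ (Q : Matrix (Fin (d i)) (Fin (d i)) ℂ) (L : Fin (d i) → ℝ), (π i = i →
      (∀ k, L k ≠ 0) ∧ ∀ x : Matrix (Fin (d i)) (Fin (d i)) ℂ,
        (x * st (Pi.single i x) i).trace =
        ((∑ k, ∑ l, Complex.normSq ((Qᴴ * x * Q) k l) * (L l / L k) : ℝ) : ℂ)) ∧
      (π i ≠ i → Q = 1) := by
    intro i
    by_cases hi : π i = i
    · have hs : ∀ x, st (Pi.single i x) = Pi.single i (st (Pi.single i x) i) := by
        intro x
        have := st_apply h hπ hππ (Pi.single i x) i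
        rw [hi, Pi.single_eq_same] at this
        exact this.symm
      obtain ⟨Q, L, -, -, h1, h2⟩ := block_form (fun x => st (Pi.single i x) i)
        (fun x y => by rw [Pi.single_add, h.add, Pi.add_apply])
        (fun c x => by rw [Pi.single_smul, h.smul, Pi.smul_apply])
        (fun x y => by rw [← single_mul_single_pi, h.mul, Pi.mul_apply])
        (fun x => by rw [← hs, h.inv, Pi.single_eq_same])
      exact ⟨Q, L, fun _ => ⟨h1, h2⟩, fun h => absurd hi h⟩
    · exact ⟨1, 0, fun h => absurd h hi, fun _ => rfl⟩
  choose Q L hQL hQ1 using hQ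
  let bad : (Σ i, Fin (d i) × Fin (d i)) → Prop := fun b =>
    if π b.1 = b.1 then ¬ (0 < L b.1 b.2.1 ↔ 0 < L b.1 b.2.2) else π b.1 < b.1
  refine ⟨{b // bad b}, inferInstance, LinearMap.pi fun b =>
    { toFun := fun x => ((Q b.1.1)ᴴ * x b.1.1 * Q b.1.1) b.1.2.1 b.1.2.2
      map_add' := fun x y => by
        rw [Pi.add_apply, mul_add, add_mul, Matrix.add_apply]
      map_smul' := fun c x => by
        rw [Pi.smul_apply, mul_smul_comm, smul_mul_assoc, Matrix.smul_apply]
        rfl }, ?_, ?_⟩
  · -- counting
    let bd : Fin n → ℕ := fun i =>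
      ((univ : Finset (Fin (d i) × Fin (d i))).filter (fun b => bad ⟨i, b⟩)).card
    let gd : Fin n → ℕ := fun i =>
      ((univ : Finset (Fin (d i) × Fin (d i))).filter (fun b => ¬ bad ⟨i, b⟩)).card
    have hsum : ∀ i, bd i + gd i = d i * d i := by
      intro i
      have := Finset.card_filter_add_card_filter_not (s := (univ : Finset (Fin (d i) × Fin (d i))))
        (fun b => bad ⟨i, b⟩)
      rw [this, Finset.card_univ, Fintype.card_prod, Fintype.card_fin]
    have hcard : Fintype.card {b // bad b} = ∑ i, bd i := by
      rw [Fintype.card_subtype, Finset.card_filter, Fintype.sum_sigma]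
      apply Finset.sum_congr rfl
      intro i _
      simp only [bd]
      rw [Finset.card_filter]
    have hle : ∀ i, bd i ≤ gd (π i) := by
      intro i
      by_cases hi : π i = i
      · rw [hi]
        have := card_signs (fun k => 0 < L i k)
        simp only [bd, gd, bad, if_pos hi, not_not]
        exact this
      · by_cases hlt : π i < i
        · have h1 : bd (π i) = 0 := by
            simp only [bd]
            rw [Finset.card_eq_zero, Finset.filter_eq_empty_iff]
            intro b _ hb
            simp only [bad] at hb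
            rw [hππ, if_neg (Ne.symm hi)] at hb
            exact absurd hb (not_lt_of_gt hlt)
          have h2 := hsum (π i)
          have h3 := hsum i
          have h4 := hdd i
          omega
        · have h1 : bd i = 0 := by
            simp only [bd]
            rw [Finset.card_eq_zero, Finset.filter_eq_empty_iff]
            intro b _ hb
            simp only [bad] at hb
            rw [if_neg hi] at hb
            exact absurd hb hlt
          rw [h1]; exact Nat.zero_le _
    have h1 : ∑ i, bd i ≤ ∑ i, gd i := by
      calc ∑ i, bd i ≤ ∑ i, gd (π i) := Finset.sum_le_sum fun i _ => hle i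
        _ = ∑ i, gd i := Equiv.sum_comp (⟨π, π, hππ, hππ⟩ : Fin n ≃ Fin n) gd
    rw [hcard]
    have h2 : ∑ i, d i * d i = ∑ i, bd i + ∑ i, gd i := by
      rw [← Finset.sum_add_distrib]
      exact Finset.sum_congr rfl fun i _ => (hsum i).symm
    omega
  · intro x hx
    have hx' : ∀ i k l, bad ⟨i, (k, l)⟩ → ((Q i)ᴴ * x i * Q i) k l = 0 := by
      intro i k l hb
      exact congrFun hx ⟨⟨i, (k, l)⟩, hb⟩
    have hexp : T (x * st x) = ∑ i, (m i : ℂ) * (x i * st x i).trace := by
      have h1 : x * st x = ∑ i, Pi.single i (x i * st x i) := by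
        ext j : 1
        rw [Finset.sum_apply, Finset.sum_eq_single j]
        · rw [Pi.single_eq_same]; rfl
        · intro b _ hb; rw [Pi.single_eq_of_ne (Ne.symm hb)]
        · intro h; exact absurd (Finset.mem_univ _) h
      rw [h1, map_sum]
      exact Finset.sum_congr rfl fun i _ => hm i _
    rw [hexp, Complex.re_sum]
    apply Finset.sum_nonneg
    intro i _
    have hsx : ∀ y, Pi.single i y = st (Pi.single (π i) (x (π i))) → st x i = y := by
      intro y hy
      have h1 := st_apply h hπ hππ x i
      rw [← hy] at h1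
      exact Pi.single_injective i h1
    by_cases hi : π i = i
    · obtain ⟨h1, h2⟩ := hQL i hi
      have h3 : st x i = st (Pi.single i (x i)) i := by
        have h4 := st_apply h hπ hππ x i
        rw [hi] at h4
        have h5 := congrFun h4 i
        rwa [Pi.single_eq_same] at h5
      rw [h3, h2, ← Complex.ofReal_natCast, ← Complex.ofReal_mul, Complex.ofReal_re]
      apply mul_nonneg (Nat.cast_nonneg _)
      apply Finset.sum_nonneg
      intro k _
      apply Finset.sum_nonneg
      intro l _
      by_cases hb : bad ⟨i, (k, l)⟩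
      · rw [hx' i k l hb, map_zero, zero_mul]
      · apply mul_nonneg (Complex.normSq_nonneg _)
        simp only [bad, if_pos hi, not_not] at hb
        rcases lt_or_gt_of_ne (h1 k) with hk | hk
        · have hl : L i l < 0 := by
            rcases lt_or_gt_of_ne (h1 l) with hl | hl
            · exact hl
            · exact absurd (hb.2 hl) (not_lt_of_gt hk)
          exact (div_pos_of_neg_of_neg hl hk).le
        · exact (div_pos (hb.1 hk) hk).le
    · have h1 : x i * st x i = 0 := by
        by_cases hlt : π i < i
        · have h2 : x i = 0 := by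
            ext k l
            have h3 := hx' i k l (by simp only [bad]; rw [if_neg hi]; exact hlt)
            rw [hQ1 i hi, conjTranspose_one, one_mul, mul_one] at h3
            rw [h3]; rfl
          rw [h2, zero_mul]
        · have hlt' : i < π i := lt_of_le_of_ne (not_lt.1 hlt) (Ne.symm hi)
          have hi' : π (π i) ≠ π i := by rw [hππ]; exact Ne.symm hi
          have h2 : x (π i) = 0 := by
            ext k l
            have h3 := hx' (π i) k l (by
              simp only [bad]; rw [if_neg hi', hππ]; exact hlt')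
            rw [hQ1 (π i) hi', conjTranspose_one, one_mul, mul_one] at h3
            rw [h3]; rfl
          have h3 : st x i = 0 := by
            apply hsx
            rw [h2, Pi.single_zero, Pi.single_zero, h.zero]
          rw [h3, mul_zero]
      rw [h1, trace_zero, mul_zero, Complex.zero_re]

end

end Pool.Agent.W539.Sig
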